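import Pool.Agent.P.MP_46a8f8_ag.Tor2

/-!
Birational modifications whose exceptional components are regular hypersurfaces.
-/

namespace Pool.Agent.P.MP_46a8f8_ag

universe u

/-- `R₂` is a regular local ring containing `R₁`, and there are `x₁, …, xₙ` in `R₂` outside the
square of the maximal ideal such that every element of `R₂` is a fraction `a / b` of elements of
`R₁` whose denominator divides a power of `x₁ ⋯ xₙ` in `R₂`. -/
def Modif {S K : Type u} [CommRing S] [Field K] [Algebra S K] (R₁ R₂ : Subalgebra S K) : Prop :=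
  R₁ ≤ R₂ ∧ ∃ (_ : IsRegularLocalRing R₂) (n : ℕ) (x : Fin n → R₂),
    (∀ i, x i ∉ IsLocalRing.maximalIdeal R₂ ^ 2) ∧
      ∀ r : R₂, ∃ a ∈ R₁, ∃ b ∈ R₁, ∃ (c : R₂) (k : ℕ),
        b * (c : K) = (∏ i, (x i : K)) ^ k ∧ b * (r : K) = a

end Pool.Agent.P.MP_46a8f8_ag
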