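import Pool.Agent.P.MP_46a8f8_ag.BU.Down

/-!
The dimension does not grow in a birational step.
-/

namespace Pool.Agent.P.MP_46a8f8_ag.BU

open Function IsLocalRing

universe u

variable {R : Type u} [CommRing R]

theorem nomid [IsNoetherianRing R] {P Q q : Ideal R} [P.IsPrime] [q.IsPrime] {x : R}
    (hQ : Q ∈ (P ⊔ Ideal.span {x}).minimalPrimes) (h1 : P < q) (h2 : q < Q) : False := by
  have hQ' : Q.IsPrime := hQ.1.1
  have h3 := Ideal.map_height_le_one_of_mem_minimalPrimes hQ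
  have hs : Surjective (Ideal.Quotient.mk P) := Ideal.Quotient.mk_surjective
  have key : ∀ a b : Ideal R, P ≤ a → a < b →
      a.map (Ideal.Quotient.mk P) < b.map (Ideal.Quotient.mk P) := fun a b ha hab =>
    lt_of_le_of_ne (Ideal.map_mono hab.le) fun e => hab.ne (by
      have := congrArg (Ideal.comap (Ideal.Quotient.mk P)) e
      rwa [Ideal.comap_map_quotientMk, Ideal.comap_map_quotientMk, sup_eq_right.2 ha,
        sup_eq_right.2 (ha.trans hab.le)] at this)
  have p0 : (P.map (Ideal.Quotient.mk P)).IsPrime :=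
    Ideal.map_isPrime_of_surjective hs (Ideal.mk_ker (I := P)).le
  have p1 : (q.map (Ideal.Quotient.mk P)).IsPrime :=
    Ideal.map_isPrime_of_surjective hs ((Ideal.mk_ker (I := P)).le.trans h1.le)
  have p2 : (Q.map (Ideal.Quotient.mk P)).IsPrime :=
    Ideal.map_isPrime_of_surjective hs ((Ideal.mk_ker (I := P)).le.trans (h1.trans h2).le)
  have : (2 : ℕ∞) ≤ 1 :=
    calc (2 : ℕ∞) = 0 + 1 + 1 := by norm_num
      _ ≤ (P.map (Ideal.Quotient.mk P)).height + 1 + 1 := by gcongr; exact zero_le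
      _ ≤ (q.map (Ideal.Quotient.mk P)).height + 1 := by
        gcongr
        exact Ideal.height_add_one_le_of_lt_of_isPrime (key _ _ le_rfl h1)
      _ ≤ (Q.map (Ideal.Quotient.mk P)).height :=
        Ideal.height_add_one_le_of_lt_of_isPrime (key _ _ h1.le h2)
      _ ≤ 1 := h3
  exact absurd this (by norm_num)

theorem avoid [IsNoetherianRing R] {P q P' : Ideal R} [hP : P.IsPrime] [q.IsPrime] [P'.IsPrime]
    (h1 : P < q) (h2 : q < P') {g : R} (hg : g ∉ P) :
    ∃ Q : Ideal R, Q.IsPrime ∧ P < Q ∧ Q < P' ∧ g ∉ Q := by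
  have hfin := (Ideal.finite_minimalPrimes_of_isNoetherianRing R (P ⊔ Ideal.span {g})).insert P
  have h3 : ¬ ((P' : Set R) ⊆ ⋃ i ∈ insert P (P ⊔ Ideal.span {g}).minimalPrimes, (i : Set R)) := by
    rw [Ideal.subset_union_prime_finite hfin (f := fun i => i) P P fun i hi h _ =>
      (hi.resolve_left h).1.1]
    rintro ⟨i, hi | hi, hle⟩
    · exact (h1.trans h2).not_ge (hi ▸ hle)
    · exact nomid hi h1 (h2.trans_le hle)
  obtain ⟨x, hx, hx'⟩ := Set.not_subset.1 h3
  simp only [Set.mem_iUnion, not_exists] at hx'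
  obtain ⟨Q, hQ, hle⟩ := Ideal.exists_minimalPrimes_le (I := P ⊔ Ideal.span {x}) (J := P')
    (sup_le (h1.trans h2).le ((Ideal.span_singleton_le_iff_mem _).2 hx))
  have hxQ : x ∈ Q := hQ.1.2 (Ideal.mem_sup_right (Ideal.mem_span_singleton_self x))
  have hPQ : P ≤ Q := le_sup_left.trans hQ.1.2
  have := hQ.1.1
  refine ⟨Q, hQ.1.1, lt_of_le_of_ne hPQ fun e => hx' P (Set.mem_insert _ _) (e ▸ hxQ),
    lt_of_le_of_ne hle fun e => nomid hQ h1 (e ▸ h2), fun hgQ => ?_⟩
  obtain ⟨Q', hQ', hle'⟩ := Ideal.exists_minimalPrimes_le (I := P ⊔ Ideal.span {g}) (J := Q)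
    (sup_le hPQ ((Ideal.span_singleton_le_iff_mem _).2 hgQ))
  have := hQ'.1.1
  refine nomid hQ (q := Q') (lt_of_le_of_ne (le_sup_left.trans hQ'.1.2) fun e => hg ?_)
    (lt_of_le_of_ne hle' fun e => hx' Q' (Set.mem_insert_of_mem _ hQ') (e ▸ hxQ))
  rw [e]
  exact hQ'.1.2 (Ideal.mem_sup_right (Ideal.mem_span_singleton_self g))

theorem Bir.comap_lt {S : Type u} [CommRing S] [Algebra S R] {g : R} (h : Bir S g)
    {P Q : Ideal R} [P.IsPrime] (hlt : P < Q) (hP : g ∉ P) :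
    P.comap (algebraMap S R) < Q.comap (algebraMap S R) := by
  obtain ⟨r, hr, hr'⟩ := SetLike.exists_of_lt hlt
  obtain ⟨a, b, k, h1, h3⟩ := h r
  refine lt_of_le_of_ne (Ideal.comap_mono hlt.le) fun e => ?_
  have h4 : a ∈ P.comap (algebraMap S R) := by
    rw [e, Ideal.mem_comap, ← h3]
    exact Q.mul_mem_left _ hr
  rw [Ideal.mem_comap, ← h3] at h4
  rcases Ideal.IsPrime.mem_or_mem inferInstance h4 with h5 | h5
  · exact hP (Ideal.IsPrime.mem_of_pow_mem inferInstance k (Ideal.mem_of_dvd P h1 h5))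
  · exact hr' h5

theorem Bir.dim_le {S : Type u} [CommRing S] [Algebra S R] [IsDomain R] [IsNoetherianRing R]
    {g : R} (hg : g ≠ 0) (h : Bir S g) (hS : ringKrullDim S ≤ 3) : ringKrullDim R ≤ 3 := by
  by_contra hc
  have h4 : ((4 : ℕ) : WithBot ℕ∞) ≤ ringKrullDim R := by
    have := ENat.WithBot.add_one_le_iff.2 (show ((3 : ℕ) : WithBot ℕ∞) < _ from not_le.1 hc)
    exact le_trans (by norm_cast) this
  obtain ⟨l, hl⟩ := Order.le_krullDim_iff.1 h4
  let c : Fin 5 → Ideal R := fun i => (l (i.cast (by rw [hl]))).asIdeal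
  have hp : ∀ i, (c i).IsPrime := fun i => (l _).isPrime
  have hlt : ∀ i j, i < j → c i < c j := fun i j hij => l.strictMono hij
  obtain ⟨q₁, _, a1, b1, c1⟩ := avoid (P := ⊥) (bot_le.trans_lt (hlt 0 1 (by decide)))
    (hlt 1 2 (by decide)) (g := g) hg
  obtain ⟨q₂, _, a2, b2, c2⟩ := avoid b1 (hlt 2 3 (by decide)) c1
  obtain ⟨q₃, _, a3, b3, c3⟩ := avoid b2 (hlt 3 4 (by decide)) c2
  have : ((4 : ℕ∞) : WithBot ℕ∞) ≤ 3 := by
    refine le_trans (WithBot.coe_le_coe.2 ?_)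
      ((Ideal.height_le_ringKrullDim_of_isPrime
        (I := (c 4).comap (algebraMap S R))).trans hS)
    calc (4 : ℕ∞) = 0 + 1 + 1 + 1 + 1 := by norm_num
      _ ≤ ((⊥ : Ideal R).comap (algebraMap S R)).height + 1 + 1 + 1 + 1 := by
        gcongr; exact zero_le
      _ ≤ (q₁.comap (algebraMap S R)).height + 1 + 1 + 1 := by
        gcongr
        exact Ideal.height_add_one_le_of_lt_of_isPrime (h.comap_lt a1 hg)
      _ ≤ (q₂.comap (algebraMap S R)).height + 1 + 1 := by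
        gcongr
        exact Ideal.height_add_one_le_of_lt_of_isPrime (h.comap_lt a2 c1)
      _ ≤ (q₃.comap (algebraMap S R)).height + 1 := by
        gcongr
        exact Ideal.height_add_one_le_of_lt_of_isPrime (h.comap_lt a3 c2)
      _ ≤ _ := Ideal.height_add_one_le_of_lt_of_isPrime (h.comap_lt b3 c3)
  exact absurd (WithBot.coe_le_coe.1 this) (by norm_num)

end Pool.Agent.P.MP_46a8f8_ag.BU
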