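import Pool.Agent.P.MP_46a8f8_ag.BU.Step

/-!
Vanishing in codimension two descends from a localisation.
-/

namespace Pool.Agent.P.MP_46a8f8_ag.BU

open Function TensorProduct IsLocalRing

universe u

/-- a module over the base change of an algebra, as a module over the algebra -/
def Dn (R A O N : Type u) [CommRing R] [Ring A] [Algebra R A] [CommRing O] [Algebra R O]
    [AddCommGroup N] [Module (O ⊗[R] A) N] : Type u := N

section

variable (R A O N : Type u) [CommRing R] [Ring A] [Algebra R A] [CommRing O] [Algebra R O]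
  [AddCommGroup N] [Module (O ⊗[R] A) N]

instance : AddCommGroup (Dn R A O N) := inferInstanceAs (AddCommGroup N)

noncomputable instance : Module (O ⊗[R] A) (Dn R A O N) := inferInstanceAs (Module (O ⊗[R] A) N)

noncomputable instance : Module A (Dn R A O N) :=
  Module.compHom N (Algebra.TensorProduct.includeRight : A →ₐ[R] O ⊗[R] A).toRingHom

variable {R A O N}

theorem dn_smul (a : A) (n : Dn R A O N) : a • n = ((1 : O) ⊗ₜ[R] a) • n := rfl

theorem dn_base (r : R) (n : Dn R A O N) :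
    algebraMap R A r • n = algebraMap O (O ⊗[R] A) (algebraMap R O r) • n := by
  rw [dn_smul]
  congr 1
  rw [Algebra.algebraMap_eq_smul_one, ← smul_tmul, ← Algebra.algebraMap_eq_smul_one]
  rfl

variable {N' : Type u} [AddCommGroup N'] [Module (O ⊗[R] A) N']

/-- restriction of a linear map -/
def dnMap (f : N →ₗ[O ⊗[R] A] N') : Dn R A O N →ₗ[A] Dn R A O N' where
  toFun := f
  map_add' := f.map_add
  map_smul' a n := f.map_smul ((1 : O) ⊗ₜ[R] a) n

end

/-- a finitely generated submodule which spans after localisation -/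
def Lat {R A N : Type u} [CommRing R] [Ring A] [Algebra R A] [AddCommGroup N] [Module A N]
    (T : Submonoid R) (L : Submodule A N) : Prop :=
  Module.Finite A L ∧ ∀ n : N, ∃ t ∈ T, algebraMap R A t • n ∈ L

section

variable {R A Γ : Type u} [CommRing R] [Ring A] [Algebra R A] [CommGroup Γ] {χ : Inv A Γ}
  {T : Submonoid R}

theorem eq_of_inj [Nontrivial R] (c1 : IsAdd R χ)
    (c2 : ∀ (L : Type u) [AddCommGroup L] [Module A L], Module.Finite A L →
      (∃ t ∈ T, ∀ m : L, algebraMap R A t • m = 0) → χ L = 1)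
    {N : Type u} [AddCommGroup N] [Module A N] (hN : Tors R A N) (L : Submodule A N)
    (h : ∀ n : N, ∃ t ∈ T, algebraMap R A t • n ∈ L) : χ N = χ L := by
  have := (hN.quot L).1
  rw [c1.sub_quot hN L, c2 _ this (uniform T fun m => ?_), mul_one]
  obtain ⟨n, rfl⟩ := L.mkQ_surjective m
  obtain ⟨t, ht, h1⟩ := h n
  exact ⟨t, ht, by rw [← map_smul, Submodule.mkQ_apply, Submodule.Quotient.mk_eq_zero]; exact h1⟩

theorem Lat.le [Nontrivial R] [IsNoetherianRing A] (c1 : IsAdd R χ)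
    (c2 : ∀ (L : Type u) [AddCommGroup L] [Module A L], Module.Finite A L →
      (∃ t ∈ T, ∀ m : L, algebraMap R A t • m = 0) → χ L = 1)
    {N : Type u} [AddCommGroup N] [Module A N] {L L' : Submodule A N} (hL : Tors R A L)
    (h' : Lat T L') : χ L = χ (L ⊓ L' : Submodule A N) := by
  rw [eq_of_inj c1 c2 hL (L'.comap L.subtype) fun n => h'.2 n.1]
  refine c1.equiv ?_ (hL.sub _)
  exact (LinearEquiv.ofEq _ _ (by rw [Submodule.comap_inf, Submodule.comap_subtype_self,
    top_inf_eq])).trans (Submodule.comapSubtypeEquivOfLe (inf_le_left : L ⊓ L' ≤ L))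

theorem Lat.eq [Nontrivial R] [IsNoetherianRing A] (c1 : IsAdd R χ)
    (c2 : ∀ (L : Type u) [AddCommGroup L] [Module A L], Module.Finite A L →
      (∃ t ∈ T, ∀ m : L, algebraMap R A t • m = 0) → χ L = 1)
    {N : Type u} [AddCommGroup N] [Module A N] {L L' : Submodule A N} (h : Lat T L)
    (h' : Lat T L') (r : R) (hr : r ≠ 0) (hN : ∀ n : N, algebraMap R A r • n = 0) :
    χ L = χ L' := by
  rw [Lat.le c1 c2 ⟨h.1, r, hr, fun m => Subtype.ext (hN m.1)⟩ h',
    Lat.le c1 c2 ⟨h'.1, r, hr, fun m => Subtype.ext (hN m.1)⟩ h, inf_comm]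

variable {O : Type u} [CommRing O] [Algebra R O] [IsLocalization T O]

theorem exists_lat (T : Submonoid R) [IsLocalization T O] (N : Type u) [AddCommGroup N]
    [Module (O ⊗[R] A) N] [hN : Module.Finite (O ⊗[R] A) N] :
    ∃ L : Submodule A (Dn R A O N), Lat T L := by
  obtain ⟨F, hF⟩ := (show Module.Finite (O ⊗[R] A) (Dn R A O N) from hN).fg_top
  refine ⟨Submodule.span A (F : Set (Dn R A O N)), Module.Finite.span_of_finite A F.finite_toSet,
    fun n => ?_⟩
  have hn : n ∈ Submodule.span (O ⊗[R] A) (F : Set (Dn R A O N)) := hF ▸ Submodule.mem_top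
  induction hn using Submodule.span_induction with
  | mem x hx => exact ⟨1, T.one_mem, Submodule.smul_mem _ _ (Submodule.subset_span hx)⟩
  | zero => exact ⟨1, T.one_mem, by rw [smul_zero]; exact Submodule.zero_mem _⟩
  | add x y _ _ hx hy =>
    obtain ⟨t, ht, h1⟩ := hx
    obtain ⟨t', ht', h1'⟩ := hy
    refine ⟨t * t', T.mul_mem ht ht', ?_⟩
    rw [smul_add, map_mul, mul_smul _ _ y, ← Algebra.commutes, mul_smul]
    exact Submodule.add_mem _ (Submodule.smul_mem _ _ h1) (Submodule.smul_mem _ _ h1')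
  | smul c x _ hx =>
    obtain ⟨t, ht, h1⟩ := hx
    obtain ⟨s, a, h2⟩ := exists_smul_eq_one_tmul T O c
    refine ⟨t * s, T.mul_mem ht s.2, ?_⟩
    rw [map_mul, mul_smul, dn_base s.1, smul_smul _ c, ← Algebra.smul_def, h2, ← dn_smul,
      smul_smul, Algebra.commutes, mul_smul]
    exact Submodule.smul_mem _ _ h1

theorem dn_tors (T : Submonoid R) [IsLocalization T O] {N : Type u} [AddCommGroup N]
    [Module (O ⊗[R] A) N] (hN : Tors O (O ⊗[R] A) N) :
    ∃ r : R, r ≠ 0 ∧ ∀ n : Dn R A O N, algebraMap R A r • n = 0 := by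
  obtain ⟨-, o, ho, h⟩ := hN
  obtain ⟨⟨r, s⟩, hs⟩ := IsLocalization.surj T o
  refine ⟨r, fun h0 => ho ?_, fun n => ?_⟩
  · rw [h0, map_zero] at hs
    exact (IsLocalization.map_units O s).mul_left_eq_zero.1 hs
  · rw [dn_base, ← hs, mul_comm, map_mul, mul_smul]
    have h' : algebraMap O (O ⊗[R] A) o • n = 0 := h n
    rw [h', smul_zero]

end

/-- descent from the localisation at a prime -/
theorem down {R A : Type u} [CommRing R] [IsDomain R] [IsNoetherianRing R] [Ring A] [Algebra R A]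
    [Module.Free R A] [Module.Finite R A] (hA : Az R A) (𝔓 : Ideal R) [𝔓.IsPrime]
    (hO : VV (Localization.AtPrime 𝔓) (Localization.AtPrime 𝔓 ⊗[R] A))
    (hV : ∀ (Γ : Type u) [CommGroup Γ] (ψ : Inv A Γ), IsAdd R ψ → ∀ 𝔭 : Ideal R,
      𝔭.IsPrime → ¬ 𝔭 ≤ 𝔓 → 2 ≤ 𝔭.height → Van ψ 𝔭) : VV R A := by
  classical
  intro Γ _ ψ hψ 𝔭 h𝔭 h2
  by_cases hle : 𝔭 ≤ 𝔓
  swap
  · exact hV Γ ψ hψ 𝔭 h𝔭 hle h2
  intro M _ _ hM hK
  let O := Localization.AtPrime 𝔓
  let T := 𝔓.primeCompl
  have := isNoetherianRing_alg R A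
  have := isNoetherianRing_alg O (O ⊗[R] A)
  have hi : Injective (algebraMap R O) := IsLocalization.injective O 𝔓.primeCompl_le_nonZeroDivisors
  obtain ⟨Γ', _, χ, c1, c2, c3⟩ := exists_quot (T := T) hA hψ
    (fun t ht h0 => ht (h0 ▸ 𝔓.zero_mem))
    (fun t ht 𝔮 h𝔮 hq => hV Γ ψ hψ 𝔮 h𝔮 fun h => ht (h hq))
  let χ₀ : Inv (O ⊗[R] A) Γ' := fun N _ _ =>
    if h : ∃ L : Submodule A (Dn R A O N), Lat T L then χ h.choose else 1
  have e₀ : ∀ (N : Type u) [AddCommGroup N] [Module (O ⊗[R] A) N], Tors O (O ⊗[R] A) N →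
      ∀ L : Submodule A (Dn R A O N), Lat T L → χ₀ N = χ L := by
    intro N _ _ hN L hL
    obtain ⟨r, hr, h⟩ := dn_tors T hN
    have hex : ∃ L : Submodule A (Dn R A O N), Lat T L := ⟨L, hL⟩
    exact (dif_pos hex).trans (hex.choose_spec.eq c1 c2 hL r hr h)
  have hχ₀ : IsAdd O χ₀ := by
    intro N₁ N₂ N₃ _ _ _ _ _ _ f p hf hfp hp hN
    have := hN.1
    obtain ⟨L, hL⟩ := exists_lat (A := A) (O := O) T N₂
    obtain ⟨r, hr, h⟩ := dn_tors T hN
    have hT : Tors R A L := ⟨hL.1, r, hr, fun m => Subtype.ext (h m.1)⟩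
    let f' : L.comap (dnMap f) →ₗ[A] L := (dnMap f).restrict fun _ hx => hx
    have hf' : Injective f' := fun x y e => Subtype.ext (hf (congrArg Subtype.val e))
    let p' : L →ₗ[A] L.map (dnMap p) := (dnMap p).restrict fun x hx => Submodule.mem_map_of_mem hx
    have hp' : Surjective p' := by
      rintro ⟨_, x, hx, rfl⟩
      exact ⟨⟨x, hx⟩, rfl⟩
    rw [e₀ N₂ hN L hL, e₀ N₁ (hN.of_injective f hf) (L.comap (dnMap f))
      ⟨(hT.of_injective f' hf').1, fun n => ?_⟩, e₀ N₃ (hN.of_surjective p hp) (L.map (dnMap p))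
      ⟨(hT.of_surjective p' hp').1, fun n => ?_⟩]
    · refine c1 _ _ _ f' p' hf' (fun y => ⟨fun hy => ?_, ?_⟩) hp' hT
      · obtain ⟨x, hx⟩ := (hfp y.1).1 (congrArg Subtype.val hy)
        exact ⟨⟨x, by
          change f x ∈ L
          rw [hx]
          exact y.2⟩, Subtype.ext hx⟩
      · rintro ⟨x, rfl⟩
        exact Subtype.ext (hfp.apply_apply_eq_zero x.1)
    · obtain ⟨x, rfl⟩ := hp n
      obtain ⟨t, ht, h1⟩ := hL.2 x
      exact ⟨t, ht, _, h1, (dnMap p).map_smul _ x⟩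
    · obtain ⟨t, ht, h1⟩ := hL.2 (dnMap f n)
      exact ⟨t, ht, by rw [Submodule.mem_comap, map_smul]; exact h1⟩
  let _ : Module R M := Module.compHom M (algebraMap R A)
  have : IsScalarTower R A M := ⟨fun r a m => by rw [Algebra.smul_def, mul_smul]; rfl⟩
  have hp0 : 𝔭 ≠ ⊥ := by
    rintro rfl
    rw [Ideal.height_bot] at h2
    exact absurd h2 (by norm_num)
  have hT : Tors R A M := hK.tors hp0 hM
  have hdis : Disjoint (T : Set R) 𝔭 := Set.disjoint_left.2 fun t ht h => ht (hle h)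
  have hpr := IsLocalization.isPrime_of_isPrime_disjoint T O 𝔭 h𝔭 hdis
  have hht : 2 ≤ (𝔭.map (algebraMap R O)).height := by
    rw [← IsLocalization.height_under T, IsLocalization.under_map_of_isPrime_disjoint T O h𝔭 hdis]
    exact h2
  have h3 : χ₀ (Ext R M O A) = 1 := by
    refine hO Γ' χ₀ hχ₀ _ hpr hht _ ext_finite fun o ho z => ?_
    rw [algebraMap_smul]
    refine Submodule.span_induction (p := fun o _ => o • z = 0) ?_ (zero_smul _ _)
      (fun x y _ _ hx hy => by rw [add_smul, hx, hy, add_zero])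
      (fun c x _ hx => by rw [smul_eq_mul, mul_smul, hx, smul_zero]) ho
    rintro _ ⟨s, hs, rfl⟩
    induction z using Ext.ind with
    | h0 => exact smul_zero _
    | h1 r n => rw [smul_tm, tm_base, hK s hs, tm_zero]
    | h2 x y hx hy => rw [smul_add, hx, hy, add_zero]
  let j : M →ₗ[A] Dn R A O (Ext R M O A) :=
    { toFun := fun m => (tm 1 m : Ext R M O A)
      map_add' := tm_add 1
      map_smul' := fun a m => by
        change (tm 1 (a • m) : Ext R M O A) = ((1 : O) ⊗ₜ[R] a) • (tm 1 m : Ext R M O A)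
        rw [tmul_smul_tm, one_mul] }
  have hj := hT.of_surjective j.rangeRestrict (LinearMap.surjective_rangeRestrict j)
  refine c3 𝔭 h𝔭 h2 M hM hK ?_
  rw [e₀ _ (ext_tors hi hT) (LinearMap.range j) ⟨hj.1, fun z => ?_⟩] at h3
  · have := (hT.sub (LinearMap.ker j.rangeRestrict)).1
    rw [c1.ker hT j.rangeRestrict (LinearMap.surjective_rangeRestrict j), h3, mul_one]
    refine c2 _ this (uniform T fun m => ?_)
    have h4 : TensorProduct.mk R O M 1 m.1 = 0 := congrArg Subtype.val m.2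
    obtain ⟨t, ht⟩ := (IsLocalizedModule.eq_zero_iff T _).1 h4
    exact ⟨t.1, t.2, Subtype.ext ht⟩
  · obtain ⟨⟨m, t⟩, ht⟩ := IsLocalizedModule.surj T (TensorProduct.mk R O M 1) z
    refine ⟨t.1, t.2, m, ?_⟩
    rw [dn_base]
    change (tm 1 m : Ext R M O A) =
      algebraMap O (O ⊗[R] A) (algebraMap R O t.1) • (show Ext R M O A from z)
    rw [algebraMap_smul]
    exact ht.symm.trans (algebraMap_smul O t.1 (show O ⊗[R] M from z)).symm

end Pool.Agent.P.MP_46a8f8_ag.BU
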