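import Pool.Agent.P.MP_46a8f8_ag.BU.Hyp

/-!
Extension of scalars for modules over an algebra.
-/

namespace Pool.Agent.P.MP_46a8f8_ag.BU

open Function TensorProduct

universe u

/-- a module over an algebra, with the induced action of the base ring -/
def Rs (S A N : Type u) [CommRing S] [Ring A] [Algebra S A] [AddCommGroup N] [Module A N] :
    Type u := N

section

variable (S A N : Type u) [CommRing S] [Ring A] [Algebra S A] [AddCommGroup N] [Module A N]

instance : AddCommGroup (Rs S A N) := inferInstanceAs (AddCommGroup N)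

instance : Module A (Rs S A N) := inferInstanceAs (Module A N)

instance : Module S (Rs S A N) := Module.compHom N (algebraMap S A)

instance : IsScalarTower S A (Rs S A N) :=
  ⟨fun r a m => by rw [Algebra.smul_def, mul_smul]; rfl⟩

variable [Module S N] [IsScalarTower S A N] (R : Type u) [CommRing R] [Algebra S R]

/-- the action on the extension of scalars -/
noncomputable def rho : R ⊗[S] A →ₐ[R] Module.End R (R ⊗[S] N) :=
  Algebra.TensorProduct.lift (Algebra.ofId R _)
    ((Module.End.baseChangeHom S R N).comp (Algebra.lsmul S S N))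
    (fun r _ => Algebra.commutes r _)

/-- the extension of scalars -/
def Ext (_A : Type u) : Type u := R ⊗[S] N

noncomputable instance : AddCommGroup (Ext S N R A) :=
  inferInstanceAs (AddCommGroup (R ⊗[S] N))

noncomputable instance : Module R (Ext S N R A) :=
  inferInstanceAs (Module R (R ⊗[S] N))

noncomputable instance : Module (R ⊗[S] A) (Ext S N R A) :=
  Module.compHom (R ⊗[S] N) (rho S A N R).toRingHom

instance : IsScalarTower R (R ⊗[S] A) (Ext S N R A) :=
  ⟨fun r t e => by
    change rho S A N R (r • t) e = r • rho S A N R t e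
    rw [map_smul]
    rfl⟩

variable {S A N R}

/-- a pure tensor -/
noncomputable def tm (r : R) (n : N) : Ext S N R A := r ⊗ₜ[S] n

theorem tm_add (r : R) (n n' : N) : (tm r (n + n') : Ext S N R A) = tm r n + tm r n' :=
  TensorProduct.tmul_add _ _ _

theorem tm_zero (r : R) : (tm r (0 : N) : Ext S N R A) = 0 := TensorProduct.tmul_zero _ _

theorem smul_tm (r r' : R) (n : N) : r • (tm r' n : Ext S N R A) = tm (r * r') n :=
  TensorProduct.smul_tmul' _ _ _

theorem tm_base (s : S) (r : R) (n : N) :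
    (tm (algebraMap S R s * r) n : Ext S N R A) = tm r (algebraMap S A s • n) := by
  rw [← Algebra.smul_def, algebraMap_smul]
  exact TensorProduct.smul_tmul _ _ _

theorem tmul_smul_tm (r r' : R) (a : A) (n : N) :
    (r ⊗ₜ[S] a) • (tm r' n : Ext S N R A) = tm (r * r') (a • n) := by
  change rho S A N R (r ⊗ₜ[S] a) (r' ⊗ₜ[S] n) = (r * r') ⊗ₜ[S] (a • n)
  change r • (r' ⊗ₜ[S] (a • n)) = _
  rw [smul_tmul', smul_eq_mul]

theorem Ext.ind {p : Ext S N R A → Prop} (z : Ext S N R A) (h0 : p 0) (h1 : ∀ r n, p (tm r n))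
    (h2 : ∀ x y, p x → p y → p (x + y)) : p z :=
  TensorProduct.induction_on (motive := p) z h0 h1 h2

theorem smul_ext {M : Type u} [AddCommGroup M] [Module (R ⊗[S] A) M] (F : Ext S N R A →+ M)
    (h : ∀ (r r' : R) (a : A) (n : N), F (tm (r * r') (a • n)) = (r ⊗ₜ[S] a) • F (tm r' n))
    (t : R ⊗[S] A) (z : Ext S N R A) : F (t • z) = t • F z := by
  induction t using TensorProduct.induction_on with
  | zero => rw [zero_smul, zero_smul, map_zero]
  | tmul r a =>
    induction z using Ext.ind with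
    | h0 => rw [smul_zero, map_zero, smul_zero]
    | h1 r' n => rw [tmul_smul_tm, h]
    | h2 x y hx hy => rw [smul_add, map_add, map_add, smul_add, hx, hy]
  | add x y hx hy => rw [add_smul, add_smul, map_add, hx, hy]

variable {N' N'' : Type u} [AddCommGroup N'] [Module A N'] [Module S N'] [IsScalarTower S A N']
  [AddCommGroup N''] [Module A N''] [Module S N''] [IsScalarTower S A N'']

variable (S R) in
/-- extension of scalars of a linear map -/
noncomputable def extMap (f : N →ₗ[A] N') : Ext S N R A →ₗ[R ⊗[S] A] Ext S N' R A where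
  toFun := (f.restrictScalars S).lTensor R
  map_add' := map_add _
  map_smul' := smul_ext (M := Ext S N' R A)
    ((f.restrictScalars S).lTensor R).toAddMonoidHom fun r r' a n => by
    change (tm (r * r') (f (a • n)) : Ext S N' R A) = (r ⊗ₜ[S] a) • (tm r' (f n) : Ext S N' R A)
    rw [tmul_smul_tm, map_smul]

theorem extMap_tm (f : N →ₗ[A] N') (r : R) (n : N) : extMap S R f (tm r n) = tm r (f n) := rfl

theorem extMap_surjective (f : N →ₗ[A] N') (hf : Surjective f) : Surjective (extMap S R f) :=
  LinearMap.lTensor_surjective R (g := f.restrictScalars S) hf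

theorem extMap_exact (f : N →ₗ[A] N') (g : N' →ₗ[A] N'') (h : Exact f g) (hg : Surjective g) :
    Exact (extMap S R f) (extMap S R g) :=
  lTensor_exact R (f := f.restrictScalars S) (g := g.restrictScalars S) h hg

theorem ext_finite [Module.Finite S A] [Module.Finite A N] :
    Module.Finite (R ⊗[S] A) (Ext S N R A) := by
  have : Module.Finite S N := Module.Finite.trans A _
  have : Module.Finite R (Ext S N R A) := inferInstanceAs (Module.Finite R (R ⊗[S] N))
  exact Module.Finite.of_restrictScalars_finite R _ _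

theorem ext_tors [Module.Finite S A] (hi : Injective (algebraMap S R)) (h : Tors S A N) :
    Tors R (R ⊗[S] A) (Ext S N R A) := by
  obtain ⟨h1, s, hs, h2⟩ := h
  refine ⟨ext_finite, algebraMap S R s, (map_ne_zero_iff _ hi).2 hs, fun z => ?_⟩
  rw [algebraMap_smul]
  induction z using Ext.ind with
  | h0 => exact smul_zero _
  | h1 r n => rw [smul_tm, tm_base, h2, tm_zero]
  | h2 x y hx hy => rw [smul_add, hx, hy, add_zero]

/-- the map out of the extension of scalars -/
noncomputable def counit {M : Type u} [AddCommGroup M] [Module (R ⊗[S] A) M] (ι : N →+ M)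
    (hι : ∀ (a : A) (n : N), ι (a • n) = ((1 : R) ⊗ₜ[S] a) • ι n) :
    Ext S N R A →ₗ[R ⊗[S] A] M :=
  let F : Ext S N R A →+ M := TensorProduct.liftAddHom
    { toFun := fun r =>
        { toFun := fun n => (r ⊗ₜ[S] (1 : A)) • ι n
          map_zero' := by
            change _ • ι 0 = 0
            rw [map_zero, smul_zero]
          map_add' := fun x y => by
            change _ • ι (_ + _) = _
            rw [map_add, smul_add] }
      map_zero' := by
        ext
        simp
      map_add' := fun _ _ => by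
        ext
        simp [add_tmul, add_smul] }
    (fun c r n => by
      change ((c • r) ⊗ₜ[S] (1 : A)) • ι n = (r ⊗ₜ[S] (1 : A)) • ι (c • n)
      rw [← algebraMap_smul A c n, hι, smul_smul, Algebra.TensorProduct.tmul_mul_tmul, mul_one, one_mul, smul_tmul,
        Algebra.algebraMap_eq_smul_one])
  { toFun := F
    map_add' := map_add _
    map_smul' := smul_ext F fun r r' a n => by
      change ((r * r') ⊗ₜ[S] (1 : A)) • ι (a • n) = (r ⊗ₜ[S] a) • (r' ⊗ₜ[S] (1 : A)) • ι n
      rw [hι, smul_smul, smul_smul, Algebra.TensorProduct.tmul_mul_tmul,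
        Algebra.TensorProduct.tmul_mul_tmul, mul_one, mul_one, one_mul] }

theorem counit_tm {M : Type u} [AddCommGroup M] [Module (R ⊗[S] A) M] (ι : N →+ M)
    (hι : ∀ (a : A) (n : N), ι (a • n) = ((1 : R) ⊗ₜ[S] a) • ι n) (r : R) (n : N) :
    counit ι hι (tm r n) = (r ⊗ₜ[S] (1 : A)) • ι n := rfl

/-- after inverting `g` the ring `R` is a localisation of `S` -/
def Bir (S : Type u) {R : Type u} [CommRing S] [CommRing R] [Algebra S R] (g : R) : Prop :=
  ∀ r : R, ∃ (a b : S) (k : ℕ), algebraMap S R b ∣ g ^ k ∧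
    algebraMap S R b * r = algebraMap S R a

variable {g : R}

theorem Bir.norm (h : Bir S g) (z : Ext S N R A) :
    ∃ (b : S) (k : ℕ) (n : N), algebraMap S R b ∣ g ^ k ∧ algebraMap S R b • z = tm 1 n := by
  induction z using Ext.ind with
  | h0 => exact ⟨1, 0, 0, by simp, by rw [smul_zero, tm_zero]⟩
  | h1 r n =>
    obtain ⟨a, b, k, h1, h2⟩ := h r
    exact ⟨b, k, algebraMap S A a • n, h1, by rw [smul_tm, h2, ← tm_base, mul_one]⟩
  | h2 x y hx hy =>
    obtain ⟨b, k, n, h1, h2⟩ := hx
    obtain ⟨b', k', n', h1', h2'⟩ := hy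
    refine ⟨b * b', k + k', algebraMap S A b' • n + algebraMap S A b • n', ?_, ?_⟩
    · rw [map_mul, pow_add]
      exact mul_dvd_mul h1 h1'
    · rw [smul_add, map_mul, mul_smul _ _ y, h2', mul_comm, mul_smul, h2, tm_add, smul_tm,
        smul_tm, tm_base, tm_base]

theorem Bir.ker [IsDomain R] (h : Bir S g) (hg : g ≠ 0) (hi : Injective (algebraMap S R)) (n : N)
    (hn : (tm 1 n : Ext S N R A) = 0) :
    ∃ (b : S) (k : ℕ), algebraMap S R b ∣ g ^ k ∧ algebraMap S A b • n = 0 := by
  let O := Localization.Away g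
  let T : Submonoid S :=
    { carrier := {b | ∃ k : ℕ, algebraMap S R b ∣ g ^ k}
      one_mem' := ⟨0, by simp⟩
      mul_mem' := fun {a b} ⟨k, hk⟩ ⟨l, hl⟩ => ⟨k + l, by
        rw [map_mul, pow_add]
        exact mul_dvd_mul hk hl⟩ }
  have hu : ∀ k : ℕ, IsUnit (algebraMap R O (g ^ k)) := fun k => by
    rw [map_pow]
    exact (IsLocalization.Away.algebraMap_isUnit g).pow k
  have hinj : Injective (algebraMap R O) :=
    IsLocalization.injective O (powers_le_nonZeroDivisors_of_noZeroDivisors hg)
  have hT : IsLocalization T O := by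
    rw [isLocalization_iff]
    refine ⟨fun y => ?_, fun z => ?_, fun {x y} hxy => ⟨1, ?_⟩⟩
    · obtain ⟨k, hk⟩ := y.2
      rw [IsScalarTower.algebraMap_apply S R O]
      exact isUnit_of_dvd_unit (map_dvd _ hk) (hu k)
    · obtain ⟨⟨r, _, k, rfl⟩, hz⟩ := IsLocalization.surj (Submonoid.powers g) z
      obtain ⟨a, b, l, h1, h2⟩ := h r
      obtain ⟨a', b', l', h1', h2'⟩ := h (g ^ k)
      obtain ⟨c, hc⟩ := h1'
      refine ⟨(a * b', ⟨b * a', l + (l' + k), ?_⟩), ?_⟩
      · rw [map_mul, pow_add, ← h2', pow_add]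
        exact mul_dvd_mul h1 (mul_dvd_mul ⟨c, hc⟩ dvd_rfl)
      · have hz' : z * algebraMap R O (g ^ k) = algebraMap R O r := hz
        change z * algebraMap S O (b * a') = algebraMap S O (a * b')
        rw [IsScalarTower.algebraMap_apply S R O, IsScalarTower.algebraMap_apply S R O, map_mul,
          map_mul _ a, ← h2', ← h2, map_mul, map_mul, map_mul, map_mul, ← hz']
        ring
    · rw [IsScalarTower.algebraMap_apply S R O, IsScalarTower.algebraMap_apply S R O] at hxy
      rw [hi (hinj hxy)]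
  have h1 : TensorProduct.mk S O N 1 n = 0 := by
    have := congrArg ((IsScalarTower.toAlgHom S R O).toLinearMap.rTensor N) hn
    rw [show (0 : Ext S N R A) = (0 : R ⊗[S] N) from rfl, map_zero] at this
    rw [← this]
    change (1 : O) ⊗ₜ[S] n = algebraMap R O 1 ⊗ₜ[S] n
    rw [map_one]
  obtain ⟨⟨b, k, hk⟩, hb⟩ := (IsLocalizedModule.eq_zero_iff T _).1 h1
  exact ⟨b, k, hk, by rw [algebraMap_smul]; exact hb⟩

theorem Bir.ker_extMap [IsDomain R] (h : Bir S g) (hg : g ≠ 0) (hi : Injective (algebraMap S R))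
    (f : N →ₗ[A] N') (hf : Injective f) (z : Ext S N R A) (hz : extMap S R f z = 0) :
    ∃ k : ℕ, algebraMap R (R ⊗[S] A) (g ^ k) • z = 0 := by
  obtain ⟨b, k, n, ⟨c, hc⟩, h2⟩ := h.norm z
  have h3 : (tm 1 (f n) : Ext S N' R A) = 0 := by
    rw [← extMap_tm, ← h2, ← algebraMap_smul (R ⊗[S] A), map_smul, hz, smul_zero]
  obtain ⟨b', k', ⟨c', hc'⟩, h4⟩ := h.ker hg hi (f n) h3
  have h5 : algebraMap S A b' • n = 0 := hf (by rw [map_smul, h4, map_zero])
  refine ⟨k' + k, ?_⟩
  rw [algebraMap_smul, pow_add, hc, hc', mul_comm _ c, mul_smul, mul_smul c, h2, smul_comm,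
    mul_comm _ c', mul_smul, smul_tm (algebraMap S R b'), tm_base, h5, tm_zero, smul_zero,
    smul_zero]

theorem Bir.ker_counit (h : Bir S g) {M : Type u} [AddCommGroup M] [Module (R ⊗[S] A) M]
    (ι : N →+ M) (hι : ∀ (a : A) (n : N), ι (a • n) = ((1 : R) ⊗ₜ[S] a) • ι n) (hi : Injective ι)
    (z : Ext S N R A) (hz : counit ι hι z = 0) :
    ∃ k : ℕ, algebraMap R (R ⊗[S] A) (g ^ k) • z = 0 := by
  obtain ⟨b, k, n, ⟨c, hc⟩, h2⟩ := h.norm z
  have h3 : counit ι hι (tm 1 n) = 0 := by
    rw [← h2, ← algebraMap_smul (R ⊗[S] A), map_smul, hz, smul_zero]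
  rw [counit_tm, ← Algebra.TensorProduct.one_def, one_smul] at h3
  have h4 : n = 0 := hi (h3.trans (map_zero ι).symm)
  refine ⟨k, ?_⟩
  rw [algebraMap_smul, hc, mul_comm, mul_smul, h2, h4, tm_zero, smul_zero]

end

end Pool.Agent.P.MP_46a8f8_ag.BU
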