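import Pool.Agent.P.MP_46a8f8_ag.Fin

/-!
Additive invariants vanish on modules supported on a proper closed subset of a regular
hypersurface.
-/

namespace Pool.Agent.P.MP_46a8f8_ag.BU

open Function IsLocalRing

universe u

/-- every additive invariant vanishes in codimension two -/
def VV (R A : Type u) [CommRing R] [Ring A] [Algebra R A] : Prop :=
  ∀ (Γ : Type u) [CommGroup Γ] (ψ : Inv A Γ), IsAdd R ψ → ∀ 𝔭 : Ideal R, 𝔭.IsPrime →
    2 ≤ 𝔭.height → Van ψ 𝔭

section

variable {R A Γ : Type u} [CommRing R] [Ring A] [Algebra R A] [CommGroup Γ]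

/-- the value of the invariant on a module which is free of rank `k` over `R ⧸ J` -/
def Fr (ψ : Inv A Γ) (J : Ideal R) (k : ℕ) (γ : Γ) : Prop :=
  ∃ (P : Type u) (_ : AddCommGroup P) (_ : Module A P) (_ : Module R P) (_ : IsScalarTower R A P),
    Nonempty (P ≃ₗ[R] (Fin k → R ⧸ J)) ∧ ψ P = γ

theorem tors_of_equiv {P : Type u} [AddCommGroup P] [Module A P] [Module R P]
    [IsScalarTower R A P] {J : Ideal R} (hJ : J ≠ ⊥) {k : ℕ} (e : P ≃ₗ[R] (Fin k → R ⧸ J)) :
    Tors R A P := by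
  have : Module.Finite R P := Module.Finite.equiv e.symm
  refine Kill.tors (I := J) (fun s hs m => ?_) hJ (Module.Finite.of_restrictScalars_finite R A P)
  rw [algebraMap_smul]
  apply e.injective
  rw [map_smul, map_zero]
  funext i
  obtain ⟨y, hy⟩ := Ideal.Quotient.mk_surjective (e m i)
  rw [Pi.smul_apply, ← hy, Pi.zero_apply, Algebra.smul_def, Ideal.Quotient.algebraMap_eq,
    Ideal.Quotient.eq_zero_iff_mem.2 hs, zero_mul]

variable {ψ : Inv A Γ} {J : Ideal R}

theorem Fr.unique [IsLocalRing R] [IsNoetherianRing R] (hA : Az R A) (hψ : IsAdd R ψ)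
    (hJ : J ≠ ⊥) {k : ℕ} {γ γ' : Γ} (h : Fr ψ J k γ) (h' : Fr ψ J k γ') : γ = γ' := by
  obtain ⟨P, _, _, _, _, ⟨e⟩, rfl⟩ := h
  obtain ⟨Q, _, _, _, _, ⟨e'⟩, rfl⟩ := h'
  obtain ⟨f⟩ := lemF ss R A P Q J k hA ⟨e⟩ ⟨e'⟩
  exact hψ.equiv f (tors_of_equiv hJ e)

theorem Fr.mul [IsDomain R] (hψ : IsAdd R ψ) (hJ : J ≠ ⊥) {k l : ℕ} {γ γ' : Γ}
    (h : Fr ψ J k γ) (h' : Fr ψ J l γ') : Fr ψ J (k + l) (γ * γ') := by
  obtain ⟨P, _, _, _, _, ⟨e⟩, rfl⟩ := h
  obtain ⟨Q, _, _, _, _, ⟨e'⟩, rfl⟩ := h'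
  refine ⟨P × Q, inferInstance, inferInstance, inferInstance, inferInstance, ⟨?_⟩,
    hψ.prod (tors_of_equiv hJ e) (tors_of_equiv hJ e')⟩
  exact (e.prodCongr e').trans ((LinearEquiv.sumArrowLequivProdArrow _ _ R _).symm.trans
    (LinearEquiv.funCongrLeft R _ finSumFinEquiv.symm))

theorem Fr.one [Nontrivial R] (hψ : IsAdd R ψ) : Fr ψ J 0 1 :=
  ⟨PUnit.{u + 1}, inferInstance, inferInstance, inferInstance, inferInstance,
    ⟨LinearEquiv.ofSubsingleton _ _⟩, hψ.subsingleton _⟩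

theorem resolve [IsDomain R] [IsNoetherianRing R] [Module.Free R A] [Module.Finite R A]
    [IsLocalRing (R ⧸ J)] [IsDomain (R ⧸ J)] (hψ : IsAdd R ψ) (hJ : J ≠ ⊥) (r : ℕ) :
    ∀ (N : Type u) [AddCommGroup N] [Module A N] [Module R N] [IsScalarTower R A N]
      [Module (R ⧸ J) N] [IsScalarTower R (R ⧸ J) N] [Module.Finite A N], PD (R ⧸ J) N r →
      ∃ (k l : ℕ) (γ γ' : Γ), Fr ψ J k γ ∧ Fr ψ J l γ' ∧ ψ N * γ' = γ ∧
        Module.finrank (R ⧸ J) N + l = k := by
  have hs : Surjective (algebraMap R (R ⧸ J)) := Ideal.Quotient.mk_surjective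
  have := isNoetherianRing_alg R A
  induction r with
  | zero =>
    intro N _ _ _ _ _ _ _ h
    have := pd_zero_iff.1 h
    have : Module.Finite R N := Module.Finite.trans A N
    have : Module.Finite (R ⧸ J) N := Module.Finite.of_restrictScalars_finite R _ N
    have : Module.Free (R ⧸ J) N := Module.free_of_flat_of_isLocalRing
    exact ⟨_, 0, ψ N, 1, ⟨N, inferInstance, inferInstance, inferInstance, inferInstance,
      ⟨(Module.finBasis (R ⧸ J) N).equivFun.restrictScalars R⟩, rfl⟩, Fr.one hψ, mul_one _, rfl⟩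
  | succ r ih =>
    intro N _ _ _ _ _ _ _ h
    obtain ⟨j, p, hp⟩ := Module.Finite.exists_fin' A N
    have hK : Kill A J N := fun s hs m => by
      rw [algebraMap_smul, ← algebraMap_smul (R ⧸ J), Ideal.Quotient.algebraMap_eq,
        Ideal.Quotient.eq_zero_iff_mem.2 hs, zero_smul]
    let F := (Fin j → A) ⧸ ClosedP.mul A (Fin j → A) J
    obtain ⟨e⟩ := ClosedP.quot_equiv (A := A) (F := Fin j → A) J
    let q : F →ₗ[A] N := (ClosedP.mul A (Fin j → A) J).liftQ p (ClosedP.mul_le_ker hK p)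
    have hq : Surjective q := fun m => by
      obtain ⟨x, rfl⟩ := hp m
      exact ⟨Submodule.Quotient.mk x, rfl⟩
    have hF : Kill A J F := ClosedP.kill_quot J
    have tF : Module.IsTorsionBySet R F J := fun x a => by
      rw [← algebraMap_smul A]
      exact hF a.1 a.2 x
    let _ : Module (R ⧸ J) F := tF.module
    have : IsScalarTower R (R ⧸ J) F := tF.isScalarTower
    have tK : Module.IsTorsionBySet R (LinearMap.ker q) J := fun x a => Subtype.ext (@tF x.1 a)
    let _ : Module (R ⧸ J) (LinearMap.ker q) := tK.module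
    have : IsScalarTower R (R ⧸ J) (LinearMap.ker q) := tK.isScalarTower
    let e' : F ≃ₗ[R ⧸ J] (Fin (Module.finrank R (Fin j → A)) → R ⧸ J) :=
      e.extendScalarsOfSurjective hs
    have : Module.Free (R ⧸ J) F := Module.Free.of_equiv e'.symm
    have : Module.Finite (R ⧸ J) F := Module.Finite.equiv e'.symm
    let i' : LinearMap.ker q →ₗ[R ⧸ J] F :=
      ((LinearMap.ker q).subtype.restrictScalars R).extendScalarsOfSurjective hs
    let q' : F →ₗ[R ⧸ J] N := (q.restrictScalars R).extendScalarsOfSurjective hs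
    have hi' : Injective i' := (LinearMap.ker q).injective_subtype
    have hex : Exact i' q' := LinearMap.exact_subtype_ker_map q
    have hq' : Surjective q' := hq
    obtain ⟨k, l, γ, γ', h1, h2, h3, h4⟩ :=
      ih (LinearMap.ker q) (PD.left i' q' hi' hex hq' (PD.of_projective r) h)
    have hT : Tors R A F := tors_of_equiv hJ e
    have h5 : Fr ψ J _ (ψ F) :=
      ⟨F, inferInstance, inferInstance, inferInstance, inferInstance, ⟨e⟩, rfl⟩
    refine ⟨_, k, _, γ, h5.mul hψ hJ h2, h1, ?_, ?_⟩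
    · rw [hψ.ker hT q hq, ← h3, mul_comm (ψ (LinearMap.ker q)) (ψ N), mul_assoc]
    · have h6 := (LinearMap.ker q').finrank_quotient_add_finrank
      rw [(q'.quotKerEquivOfSurjective hq').finrank_eq, hex.linearMap_ker_eq,
        ← (LinearEquiv.ofInjective i' hi').finrank_eq, e'.finrank_eq, Module.finrank_fin_fun] at h6
      omega

end

/-- vanishing on a regular hypersurface -/
theorem van_hyp {R A Γ : Type u} [CommRing R] [IsRegularLocalRing R] [Ring A] [Algebra R A]
    [Module.Free R A] [Module.Finite R A] [CommGroup Γ] {ψ : Inv A Γ} (hA : Az R A)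
    (hψ : IsAdd R ψ) (𝔭 : Ideal R) (h𝔭 : 𝔭.IsPrime) (h2 : 2 ≤ 𝔭.height) (x : R) (hx : x ∈ 𝔭)
    (hx2 : x ∉ maximalIdeal R ^ 2) : Van ψ 𝔭 := by
  intro M _ _ hM hK
  have := pk.dom R
  have hxm : x ∈ maximalIdeal R := le_maximalIdeal h𝔭.ne_top hx
  obtain ⟨hH, -⟩ := regQuot regAt cut R x hxm hx2
  have := pk.dom (R ⧸ Ideal.span {x})
  have hJ : Ideal.span {x} ≠ ⊥ := fun h => hx2 (by
    rw [Ideal.span_singleton_eq_bot.1 h]
    exact zero_mem _)
  have hle : Ideal.span {x} ≤ 𝔭 := (Ideal.span_singleton_le_iff_mem _).2 hx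
  have hne : Ideal.span {x} ≠ 𝔭 := fun h => by
    have h1 := Ideal.height_span_singleton_le_one ((mem_maximalIdeal x).1 hxm)
    rw [h] at h1
    exact absurd (h2.trans h1) (by norm_num)
  obtain ⟨c, hc, hcJ⟩ := SetLike.exists_of_lt (lt_of_le_of_ne hle hne)
  let _ : Module R M := Module.compHom M (algebraMap R A)
  have : IsScalarTower R A M := ⟨fun r a m => by rw [Algebra.smul_def, mul_smul]; rfl⟩
  have : Module.Finite R M := Module.Finite.trans A M
  have tM : Module.IsTorsionBySet R M (Ideal.span {x}) := fun m a => hK a.1 (hle a.2) m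
  let _ : Module (R ⧸ Ideal.span {x}) M := tM.module
  have : IsScalarTower R (R ⧸ Ideal.span {x}) M := tM.isScalarTower
  have : Module.Finite (R ⧸ Ideal.span {x}) M := Module.Finite.of_restrictScalars_finite R _ M
  obtain ⟨d, hd⟩ := exists_dim (R ⧸ Ideal.span {x})
  obtain ⟨k, l, γ, γ', h1, h3, h4, h5⟩ := resolve hψ hJ d M (pk.pdReg d _ hd M)
  have h0 : Module.finrank (R ⧸ Ideal.span {x}) M = 0 := by
    refine Module.IsTorsion.finrank_eq_zero fun m => ⟨⟨Ideal.Quotient.mk _ c,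
      mem_nonZeroDivisors_of_ne_zero fun h => hcJ (Ideal.Quotient.eq_zero_iff_mem.1 h)⟩, ?_⟩
    exact hK c hc m
  rw [h0, zero_add] at h5
  subst h5
  rw [h1.unique hA hψ hJ h3] at h4
  exact mul_eq_right.1 h4

end Pool.Agent.P.MP_46a8f8_ag.BU
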