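import Pool.Agent.P.MP_46a8f8_ag.BU.Ext

/-!
Vanishing in codimension two passes to birational extensions.
-/

namespace Pool.Agent.P.MP_46a8f8_ag.BU

open Function TensorProduct IsLocalRing

universe u

section

variable {R A Γ : Type u} [CommRing R] [Ring A] [Algebra R A] [CommGroup Γ]

/-- the values on finitely generated modules killed by an element of `T` -/
def Val (ψ : Inv A Γ) (T : Submonoid R) (γ : Γ) : Prop :=
  ∃ (L : Type u) (_ : AddCommGroup L) (_ : Module A L), Module.Finite A L ∧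
    (∃ t ∈ T, ∀ m : L, algebraMap R A t • m = 0) ∧ ψ L = γ

variable {ψ : Inv A Γ} {T : Submonoid R}

theorem Val.one [Nontrivial R] (hψ : IsAdd R ψ) : Val ψ T 1 :=
  ⟨PUnit.{u + 1}, inferInstance, inferInstance, inferInstance, ⟨1, T.one_mem, fun _ => rfl⟩,
    hψ.subsingleton _⟩

theorem Val.mul [IsDomain R] (hψ : IsAdd R ψ) (h0 : ∀ t ∈ T, t ≠ 0) {γ γ' : Γ} (h : Val ψ T γ)
    (h' : Val ψ T γ') : Val ψ T (γ * γ') := by
  obtain ⟨L, _, _, h1, ⟨t, ht, h2⟩, rfl⟩ := h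
  obtain ⟨L', _, _, h1', ⟨t', ht', h2'⟩, rfl⟩ := h'
  refine ⟨L × L', inferInstance, inferInstance, inferInstance, ⟨t * t', T.mul_mem ht ht',
    fun m => Prod.ext ?_ ?_⟩, hψ.prod ⟨h1, t, h0 t ht, h2⟩ ⟨h1', t', h0 t' ht', h2'⟩⟩
  · change algebraMap R A (t * t') • m.1 = 0
    rw [map_mul, mul_smul, h2]
  · change algebraMap R A (t * t') • m.2 = 0
    rw [map_mul, mul_smul, h2', smul_zero]

/-- the subgroup generated by these values -/
def valGrp [IsDomain R] (hψ : IsAdd R ψ) (h0 : ∀ t ∈ T, t ≠ 0) : Subgroup Γ where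
  carrier := {γ | ∃ a b, Val ψ T a ∧ Val ψ T b ∧ γ * b = a}
  one_mem' := ⟨1, 1, Val.one hψ, Val.one hψ, one_mul 1⟩
  mul_mem' := by
    rintro x y ⟨a, b, h1, h2, h3⟩ ⟨a', b', h1', h2', h3'⟩
    exact ⟨a * a', b * b', h1.mul hψ h0 h1', h2.mul hψ h0 h2', by
      rw [← h3, ← h3', mul_mul_mul_comm]⟩
  inv_mem' := by
    rintro x ⟨a, b, h1, h2, h3⟩
    exact ⟨b, a, h2, h1, by rw [← h3, inv_mul_cancel_left]⟩

theorem exists_quot [IsDomain R] [IsNoetherianRing R] [Module.Free R A] [Module.Finite R A]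
    (hA : Az R A) (hψ : IsAdd R ψ) (h0 : ∀ t ∈ T, t ≠ 0)
    (hT : ∀ t ∈ T, ∀ 𝔭 : Ideal R, 𝔭.IsPrime → t ∈ 𝔭 → 2 ≤ 𝔭.height → Van ψ 𝔭) :
    ∃ (Γ' : Type u) (_ : CommGroup Γ') (χ : Inv A Γ'), IsAdd R χ ∧
      (∀ (L : Type u) [AddCommGroup L] [Module A L], Module.Finite A L →
        (∃ t ∈ T, ∀ m : L, algebraMap R A t • m = 0) → χ L = 1) ∧
      ∀ 𝔭 : Ideal R, 𝔭.IsPrime → 2 ≤ 𝔭.height → ∀ (M : Type u) [AddCommGroup M] [Module A M],
        Module.Finite A M → Kill A 𝔭 M → χ M = 1 → ψ M = 1 := by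
  classical
  choose ℓ₀ hℓ₀ using fun (𝔭 : Ideal R) (h𝔭 : 𝔭.IsPrime) (h : 𝔭.height = 1) => pk.len R A 𝔭 h
  let ℓ : Ideal R → ∀ (M : Type u) [AddCommGroup M] [Module A M], ℕ := fun 𝔭 =>
    if h : 𝔭.IsPrime ∧ 𝔭.height = 1 then ℓ₀ 𝔭 h.1 h.2 else fun _ => 0
  have hℓ : ∀ 𝔭 (h1 : 𝔭.IsPrime) (h2 : 𝔭.height = 1), ℓ 𝔭 = ℓ₀ 𝔭 h1 h2 := fun 𝔭 h1 h2 =>
    dif_pos ⟨h1, h2⟩
  let ψ' : Inv A (Γ × (Ideal R → Multiplicative ℤ)) := fun M _ _ =>
    (ψ M, fun 𝔮 => Multiplicative.ofAdd (ℓ 𝔮 M : ℤ))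
  have hψ' : IsAdd R ψ' := by
    intro M₁ M₂ M₃ _ _ _ _ _ _ f g hf hfg hg hM
    refine Prod.ext (hψ M₁ M₂ M₃ f g hf hfg hg hM) (funext fun 𝔮 => ?_)
    change Multiplicative.ofAdd (ℓ 𝔮 M₂ : ℤ) =
      Multiplicative.ofAdd (ℓ 𝔮 M₁ : ℤ) * Multiplicative.ofAdd (ℓ 𝔮 M₃ : ℤ)
    rw [← ofAdd_add, ← Nat.cast_add]
    congr 2
    by_cases h : 𝔮.IsPrime ∧ 𝔮.height = 1
    · rw [hℓ 𝔮 h.1 h.2]
      exact (hℓ₀ 𝔮 h.1 h.2).1 M₁ M₂ M₃ f g hf hfg hg hM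
    · have : ℓ 𝔮 = fun _ => 0 := dif_neg h
      rw [this]
      rfl
  refine ⟨_ ⧸ valGrp hψ' h0, inferInstance, fun M _ _ => QuotientGroup.mk (ψ' M), ?_, ?_, ?_⟩
  · intro M₁ M₂ M₃ _ _ _ _ _ _ f g hf hfg hg hM
    change QuotientGroup.mk (ψ' M₂) = QuotientGroup.mk (ψ' M₁) * QuotientGroup.mk (ψ' M₃)
    rw [hψ' M₁ M₂ M₃ f g hf hfg hg hM, QuotientGroup.mk_mul]
  · intro L _ _ h1 h2
    exact (QuotientGroup.eq_one_iff _).2 ⟨ψ' L, 1, ⟨L, _, _, h1, h2, rfl⟩, Val.one hψ', mul_one _⟩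
  · intro 𝔭 h𝔭 h2 M _ _ hM hK h
    obtain ⟨a, b, ⟨L, _, _, h1, ⟨t, ht, k1⟩, rfl⟩, ⟨L', _, _, h1', ⟨t', ht', k1'⟩, rfl⟩, e⟩ :=
      (QuotientGroup.eq_one_iff _).1 h
    have e1 : ψ M * ψ L' = ψ L := congrArg Prod.fst e
    have hp0 : 𝔭 ≠ ⊥ := by
      rintro rfl
      rw [Ideal.height_bot] at h2
      exact absurd h2 (by norm_num)
    have key := pk.cmp R A Γ ψ (t * t') hA hψ (h0 _ (T.mul_mem ht ht')) (hT _ (T.mul_mem ht ht')) ℓ
      (fun 𝔮 p1 p2 => by rw [hℓ 𝔮 p1 p2]; exact ⟨(hℓ₀ 𝔮 p1 p2).1, (hℓ₀ 𝔮 p1 p2).2.1⟩) 1 L' L h1' h1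
      (fun m => by rw [pow_one, map_mul, mul_smul, k1', smul_zero])
      (fun m => by rw [pow_one, map_mul, mul_smul, k1]) fun 𝔮 p1 p2 => by
        have e2 : Multiplicative.ofAdd (ℓ 𝔮 M : ℤ) * Multiplicative.ofAdd (ℓ 𝔮 L' : ℤ) =
          Multiplicative.ofAdd (ℓ 𝔮 L : ℤ) := congrFun (congrArg Prod.snd e) 𝔮
        have e3 : ℓ 𝔮 M = 0 := by
          rw [hℓ 𝔮 p1 p2]
          refine ((hℓ₀ 𝔮 p1 p2).2.1 M (hK.tors hp0 hM)).2 fun m => ?_
          have : ¬ 𝔭 ≤ 𝔮 := fun hle => by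
            have := h2.trans (Ideal.height_mono hle)
            rw [p2] at this
            exact absurd this (by norm_num)
          obtain ⟨s, hs, hs'⟩ := SetLike.not_le_iff_exists.1 this
          exact ⟨s, hs', hK s hs m⟩
        rw [← ofAdd_add, e3] at e2
        have e4 := Multiplicative.ofAdd.injective e2
        omega
    rw [key] at e1
    exact mul_eq_right.1 e1

theorem uniform {L : Type u} [AddCommGroup L] [Module A L] [hL : Module.Finite A L]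
    (T : Submonoid R) (h : ∀ m : L, ∃ t ∈ T, algebraMap R A t • m = 0) :
    ∃ t ∈ T, ∀ m : L, algebraMap R A t • m = 0 := by
  classical
  obtain ⟨F, hF⟩ := hL.fg_top
  choose t ht ht' using h
  refine ⟨∏ x ∈ F, t x, T.prod_mem fun x _ => ht x, fun m => ?_⟩
  have hm : m ∈ Submodule.span A (F : Set L) := hF ▸ Submodule.mem_top
  induction hm using Submodule.span_induction with
  | mem x hx =>
    rw [← Finset.prod_erase_mul F t hx, map_mul, mul_smul, ht', smul_zero]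
  | zero => exact smul_zero _
  | add x y _ _ hx hy => rw [smul_add, hx, hy, add_zero]
  | smul a x _ hx => rw [smul_smul, Algebra.commutes, mul_smul, hx, smul_zero]

end

theorem height_comap {S R : Type u} [CommRing S] [CommRing R] [IsDomain R] [Algebra S R] {g : R}
    (h : Bir S g) (hi : Injective (algebraMap S R)) (𝔭 : Ideal R) [𝔭.IsPrime] (hg : g ∉ 𝔭)
    (h2 : 2 ≤ 𝔭.height) : 2 ≤ (𝔭.comap (algebraMap S R)).height := by
  have : IsDomain S := hi.isDomain _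
  have key : ∀ (P Q : Ideal R) [P.IsPrime], P < Q → g ∉ P →
      P.comap (algebraMap S R) < Q.comap (algebraMap S R) := by
    intro P Q _ hlt hP
    obtain ⟨r, hr, hr'⟩ := SetLike.exists_of_lt hlt
    obtain ⟨a, b, k, h1, h3⟩ := h r
    refine lt_of_le_of_ne (Ideal.comap_mono hlt.le) fun e => ?_
    have h4 : a ∈ P.comap (algebraMap S R) := by
      rw [e, Ideal.mem_comap, ← h3]
      exact Q.mul_mem_left _ hr
    rw [Ideal.mem_comap, ← h3] at h4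
    rcases Ideal.IsPrime.mem_or_mem inferInstance h4 with h5 | h5
    · exact hP (Ideal.IsPrime.mem_of_pow_mem inferInstance k (Ideal.mem_of_dvd P h1 h5))
    · exact hr' h5
  obtain ⟨q, hq, h0, h1⟩ := QGeoP.exists_mid 𝔭 h2
  have a1 := key ⊥ q h0 fun hm => hg (bot_le (a := 𝔭) hm)
  have a2 := key q 𝔭 h1 fun hm => hg (h1.le hm)
  calc (2 : ℕ∞) = 0 + 1 + 1 := by norm_num
    _ ≤ ((⊥ : Ideal R).comap (algebraMap S R)).height + 1 + 1 := by gcongr; exact zero_le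
    _ ≤ (q.comap (algebraMap S R)).height + 1 := by
      gcongr
      exact Ideal.height_add_one_le_of_lt_of_isPrime a1
    _ ≤ _ := Ideal.height_add_one_le_of_lt_of_isPrime a2

/-- the birational step -/
theorem step {S A R : Type u} [CommRing S] [IsNoetherianRing S] [Ring A] [Algebra S A] [Module.Free S A]
    [Module.Finite S A] [CommRing R] [IsDomain R] [IsNoetherianRing R] [Algebra S R] (hA : Az S A)
    (hi : Injective (algebraMap S R)) {g : R} (hg : g ≠ 0) (h : Bir S g) (hS : VV S A)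
    (hV : ∀ (Γ : Type u) [CommGroup Γ] (ψ : Inv (R ⊗[S] A) Γ), IsAdd R ψ → ∀ 𝔭 : Ideal R,
      𝔭.IsPrime → g ∈ 𝔭 → 2 ≤ 𝔭.height → Van ψ 𝔭) : VV R (R ⊗[S] A) := by
  intro Γ _ ψ hψ 𝔭 h𝔭 h2
  by_cases hg𝔭 : g ∈ 𝔭
  · exact hV Γ ψ hψ 𝔭 h𝔭 hg𝔭 h2
  intro M _ _ hM hK
  have := isNoetherianRing_alg R (R ⊗[S] A)
  obtain ⟨Γ', _, χ, c1, c2, c3⟩ := exists_quot (T := Submonoid.powers g) (azBC S A R hA) hψ
    (by
      rintro _ ⟨k, rfl⟩
      exact pow_ne_zero k hg)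
    (by
      rintro _ ⟨k, rfl⟩ 𝔮 h𝔮 hk
      exact hV Γ ψ hψ 𝔮 h𝔮 (h𝔮.mem_of_pow_mem k hk))
  have c4 : ∀ {L L' : Type u} [AddCommGroup L] [Module (R ⊗[S] A) L] [AddCommGroup L']
      [Module (R ⊗[S] A) L'] (F : L →ₗ[R ⊗[S] A] L'), Tors R (R ⊗[S] A) L → Surjective F →
      (∀ z, F z = 0 → ∃ k : ℕ, algebraMap R (R ⊗[S] A) (g ^ k) • z = 0) → χ L = χ L' := by
    intro L L' _ _ _ _ F hL hF hk
    have := (hL.sub (LinearMap.ker F)).1
    rw [c1.ker hL F hF, c2 _ this (uniform _ fun z => ?_), one_mul]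
    obtain ⟨k, hk⟩ := hk z.1 z.2
    exact ⟨g ^ k, ⟨k, rfl⟩, Subtype.ext hk⟩
  let χ₀ : Inv A Γ' := fun N _ _ => χ (Ext S (Rs S A N) R A)
  have hχ₀ : IsAdd S χ₀ := by
    intro N₁ N₂ N₃ _ _ _ _ _ _ f p hf hfp hp hN
    let f' : Rs S A N₁ →ₗ[A] Rs S A N₂ := f
    let p' : Rs S A N₂ →ₗ[A] Rs S A N₃ := p
    have hT : Tors R (R ⊗[S] A) (Ext S (Rs S A N₂) R A) := ext_tors hi hN
    have hex := extMap_exact (S := S) (R := R) f' p' hfp hp
    change χ (Ext S (Rs S A N₂) R A) = χ (Ext S (Rs S A N₁) R A) * χ (Ext S (Rs S A N₃) R A)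
    rw [c1.ker hT (extMap S R p') (extMap_surjective p' hp), hex.linearMap_ker_eq]
    congr 1
    have := isNoetherianRing_alg S A
    exact (c4 (extMap S R f').rangeRestrict (ext_tors hi (hN.of_injective f hf))
      (LinearMap.surjective_rangeRestrict _) fun z hz =>
        h.ker_extMap hg hi f' hf z (congrArg Subtype.val hz)).symm
  let _ : Module A M := Module.compHom M
    (Algebra.TensorProduct.includeRight : A →ₐ[S] R ⊗[S] A).toRingHom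
  have hsm : ∀ (a : A) (m : M), a • m = ((1 : R) ⊗ₜ[S] a) • m := fun _ _ => rfl
  obtain ⟨F, hF⟩ := hM.fg_top
  let N : Submodule A M := Submodule.span A (F : Set M)
  have hN : Module.Finite A N := Module.Finite.span_of_finite A F.finite_toSet
  have hKN : Kill A (𝔭.comap (algebraMap S R)) N := fun s hs m => Subtype.ext (by
    change ((1 : R) ⊗ₜ[S] algebraMap S A s) • m.1 = 0
    rw [← hK _ hs m.1]
    congr 1
    rw [Algebra.algebraMap_eq_smul_one, ← smul_tmul, ← Algebra.algebraMap_eq_smul_one]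
    rfl)
  have h2' := height_comap h hi 𝔭 hg𝔭 h2
  have hp0 : 𝔭.comap (algebraMap S R) ≠ ⊥ := fun e => by
    have : IsDomain S := hi.isDomain _
    rw [e, Ideal.height_bot] at h2'
    exact absurd h2' (by norm_num)
  have h3 : χ (Ext S (Rs S A N) R A) = 1 := hS Γ' χ₀ hχ₀ _ inferInstance h2' N hN hKN
  let ι : Rs S A N →+ M := N.subtype.toAddMonoidHom
  have hι : ∀ (a : A) (n : Rs S A N), ι (a • n) = ((1 : R) ⊗ₜ[S] a) • ι n := fun _ _ => rfl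
  refine c3 𝔭 h𝔭 h2 M hM hK ?_
  rw [← h3]
  refine (c4 (counit ι hι) (ext_tors hi (hKN.tors hp0 hN)) ?_
    (h.ker_counit ι hι N.injective_subtype)).symm
  rw [← LinearMap.range_eq_top, eq_top_iff, ← hF, Submodule.span_le]
  intro x hx
  refine ⟨tm 1 (⟨x, Submodule.subset_span hx⟩ : N), ?_⟩
  change ((1 : R) ⊗ₜ[S] (1 : A)) • x = x
  rw [← Algebra.TensorProduct.one_def, one_smul]

end Pool.Agent.P.MP_46a8f8_ag.BU
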