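import Pool.Agent.P.MP_46a8f8_ag.BU.Dim
import Pool.Agent.P.MP_46a8f8_ag.BU.Defs

/-!
Towers of modifications of essentially smooth algebras.
-/

namespace Pool.Agent.P.MP_46a8f8_ag.BU

open Function IsLocalRing TensorProduct

universe u

theorem VV.equiv {R A A' : Type u} [CommRing R] [Ring A] [Algebra R A] [Ring A'] [Algebra R A']
    (e : A ≃ₐ[R] A') (h : VV R A') : VV R A := by
  intro Γ _ ψ hψ 𝔭 h𝔭 h2 M _ _ hM hK
  let χ : Inv A' Γ := fun N _ _ => @ψ N _ (Module.compHom N (e : A →+* A'))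
  have hχ : IsAdd R χ := by
    intro N₁ N₂ N₃ _ _ _ _ _ _ f p hf hfp hp hN
    let _ : Module A N₁ := Module.compHom N₁ (e : A →+* A')
    let _ : Module A N₂ := Module.compHom N₂ (e : A →+* A')
    let _ : Module A N₃ := Module.compHom N₃ (e : A →+* A')
    obtain ⟨⟨F, hF⟩, r, hr, h1⟩ := hN
    refine hψ N₁ N₂ N₃ ⟨f.toAddHom, fun a x => f.map_smul (e a) x⟩
      ⟨p.toAddHom, fun a x => p.map_smul (e a) x⟩ hf hfp hp ⟨⟨F, eq_top_iff.2 fun m _ => ?_⟩, r, hr,
        fun m => ?_⟩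
    · have hm : m ∈ Submodule.span A' (F : Set N₂) := hF ▸ Submodule.mem_top
      induction hm using Submodule.span_induction with
      | mem x hx => exact Submodule.subset_span hx
      | zero => exact Submodule.zero_mem _
      | add x y _ _ hx hy => exact Submodule.add_mem _ (hx trivial) (hy trivial)
      | smul a x _ hx =>
        obtain ⟨a, rfl⟩ := e.surjective a
        exact Submodule.smul_mem _ a (hx trivial)
    · change e (algebraMap R A r) • m = 0
      rw [e.commutes]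
      exact h1 m
  let i : Module A' M := Module.compHom M (e.symm : A' →+* A)
  have h3 : χ M = 1 := by
    obtain ⟨F, hF⟩ := hM.fg_top
    refine h Γ χ hχ 𝔭 h𝔭 h2 M ⟨F, eq_top_iff.2 fun m _ => ?_⟩ fun r hr m => ?_
    · have hm : m ∈ Submodule.span A (F : Set M) := hF ▸ Submodule.mem_top
      induction hm using Submodule.span_induction with
      | mem x hx => exact Submodule.subset_span hx
      | zero => exact Submodule.zero_mem _
      | add x y _ _ hx hy => exact Submodule.add_mem _ (hx trivial) (hy trivial)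
      | smul a x _ hx =>
        obtain ⟨a, rfl⟩ := e.symm.surjective a
        exact Submodule.smul_mem _ a (hx trivial)
    · change e.symm (algebraMap R A' r) • m = 0
      rw [e.symm.commutes]
      exact hK r hr m
  refine Eq.trans ?_ h3
  change ψ M = @ψ M _ (Module.compHom M (e : A →+* A'))
  congr 1
  refine Module.ext' _ _ fun a m => ?_
  change a • m = e.symm (e a) • m
  rw [e.symm_apply_apply]

/-- transitivity of base change -/
noncomputable def cancel (S R R' A : Type u) [CommRing S] [CommRing R] [CommRing R'] [Algebra S R]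
    [Algebra S R'] [Algebra R R'] [IsScalarTower S R R'] [Ring A] [Algebra S A] :
    R' ⊗[S] A ≃ₐ[R'] R' ⊗[R] (R ⊗[S] A) :=
  AlgEquiv.ofLinearEquiv (AlgebraTensorModule.cancelBaseChange S R R' R' A).symm
    (by simp [Algebra.TensorProduct.one_def])
    (LinearMap.map_mul_of_map_mul_tmul fun _ _ _ _ => by simp)

/-- dimension at most three, infinite residue field -/
theorem vv3 {R A : Type u} [CommRing R] [IsRegularLocalRing R] [Infinite (ResidueField R)]
    [Ring A] [Algebra R A] [Module.Free R A] [Module.Finite R A] (hd : ringKrullDim R ≤ 3)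
    (hA : Az R A) : VV R A := by
  intro Γ _ ψ hψ 𝔭 h𝔭 h2
  have := pk.dom R
  have hm : (maximalIdeal R).height ≤ 3 := by
    rw [← maximalIdeal_height_eq_ringKrullDim] at hd
    exact WithBot.coe_le_coe.1 hd
  have h2' : (2 : ℕ∞) ≤ (maximalIdeal R).height :=
    h2.trans (Ideal.height_mono (le_maximalIdeal h𝔭.ne_top))
  have hc : Van ψ (maximalIdeal R) := pk.closed R A Γ ψ (by
    rw [← maximalIdeal_height_eq_ringKrullDim]
    exact WithBot.coe_le_coe.2 h2') hA hψ
  by_cases h𝔪 : 𝔭 = maximalIdeal R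
  · exact h𝔪 ▸ hc
  have hlt : 𝔭 < maximalIdeal R := lt_of_le_of_ne (le_maximalIdeal h𝔭.ne_top) h𝔪
  have h3 : (maximalIdeal R).height = 3 := by
    refine le_antisymm hm ?_
    calc (3 : ℕ∞) = 2 + 1 := by norm_num
      _ ≤ 𝔭.height + 1 := by gcongr
      _ ≤ _ := Ideal.height_add_one_le_of_lt_of_isPrime hlt
  refine pk.curve R A Γ ψ 𝔭 (pk.regAt_self R 3 ?_) hA hψ hc h𝔭 ?_ h𝔪 fun 𝔮 h𝔮 hpq => ?_
  · rw [← maximalIdeal_height_eq_ringKrullDim, h3]
    rfl
  · rintro rfl
    rw [Ideal.height_bot] at h2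
    exact absurd h2 (by norm_num)
  · by_contra hne
    have hlt' : 𝔮 < maximalIdeal R := lt_of_le_of_ne (le_maximalIdeal h𝔮.ne_top) hne
    have : (4 : ℕ∞) ≤ 3 :=
      calc (4 : ℕ∞) = 2 + 1 + 1 := by norm_num
        _ ≤ 𝔭.height + 1 + 1 := by gcongr
        _ ≤ 𝔮.height + 1 := by
          gcongr
          exact Ideal.height_add_one_le_of_lt_of_isPrime hpq
        _ ≤ (maximalIdeal R).height := Ideal.height_add_one_le_of_lt_of_isPrime hlt'
        _ = 3 := h3
    exact absurd this (by norm_num)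

/-- the smooth case -/
theorem base (B S A : Type u) [CommRing B] [IsRegularLocalRing B] (hB : ringKrullDim B ≤ 3)
    [CommRing S] [IsLocalRing S] [Algebra B S] [IsLocalHom (algebraMap B S)]
    [Algebra.FormallySmooth B S] [Algebra.EssFiniteType B S] [Ring A] [Algebra S A]
    [Module.Free S A] [Module.Finite S A] (hA : Az S A) :
    IsRegularLocalRing S ∧ (VV S A ∨ ringKrullDim S ≤ 3) := by
  have := Algebra.EssFiniteType.isNoetherianRing B S
  obtain ⟨e, he⟩ := exists_dim B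
  obtain ⟨m, φ, hφ⟩ := pk.struct B S
  obtain ⟨hR, h𝔓, hreg⟩ := pk.regB B S m e φ hφ (pk.regAt_self B e he)
  have := pk.dom S
  set 𝔓 := (maximalIdeal B).map (algebraMap B S) with h𝔓def
  refine ⟨hR, ?_⟩
  by_cases hne : 𝔓 = maximalIdeal S
  · right
    rw [← maximalIdeal_height_eq_ringKrullDim, ← hne, hreg.1]
    exact he.symm.le.trans hB
  left
  obtain ⟨hO, hO'⟩ := (pk.regAt S (Localization.AtPrime 𝔓) 𝔓 e).1 hreg
  have : Infinite (S ⧸ 𝔓) := by
    by_contra hfin
    have := not_infinite_iff_finite.1 hfin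
    exact hne (eq_maximalIdeal (Ideal.Quotient.maximal_of_isField 𝔓
      (Finite.isField_of_domain (S ⧸ 𝔓))))
  have : Infinite (ResidueField (Localization.AtPrime 𝔓)) :=
    Infinite.of_injective _ (IsFractionRing.injective (S ⧸ 𝔓) 𝔓.ResidueField)
  exact down hA 𝔓 (vv3 (by rw [hO', ← he]; exact hB) (azBC S A _ hA))
    fun Γ _ ψ hψ 𝔭 h𝔭 hle h2 => pk.qv B S A Γ ψ m φ 𝔭 hφ h𝔓 hA hψ h𝔭 h2 hle

variable {S A K : Type u} [CommRing S] [Ring A] [Algebra S A] [Module.Free S A]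
  [Module.Finite S A] [Field K] [Algebra S K]

theorem modif (hA : Az S A) {R₁ R₂ : Subalgebra S K} [IsNoetherianRing R₁] (h : Modif R₁ R₂)
    (h1 : VV R₁ (R₁ ⊗[S] A) ∨ ringKrullDim R₁ ≤ 3) :
    IsRegularLocalRing R₂ ∧ (VV R₂ (R₂ ⊗[S] A) ∨ ringKrullDim R₂ ≤ 3) := by
  obtain ⟨hle, hR, n, x, hx, hb⟩ := h
  let _ : Algebra R₁ R₂ := (Subalgebra.inclusion hle).toRingHom.toAlgebra
  have : IsScalarTower S R₁ R₂ :=
    IsScalarTower.of_algebraMap_eq fun s => ((Subalgebra.inclusion hle).commutes s).symm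
  have hi : Injective (algebraMap R₁ R₂) := Subalgebra.inclusion_injective hle
  have hg : ∏ i, x i ≠ 0 := Finset.prod_ne_zero_iff.2 fun i _ h0 => hx i (h0 ▸ zero_mem _)
  have hbir : Bir R₁ (∏ i, x i) := fun r => by
    obtain ⟨a, ha, b, hb, c, k, e1, e2⟩ := hb r
    refine ⟨⟨a, ha⟩, ⟨b, hb⟩, k, ⟨c, Subtype.ext ?_⟩, Subtype.ext e2⟩
    push_cast
    exact e1.symm
  refine ⟨hR, h1.imp (fun h1 => ?_) (hbir.dim_le hg)⟩
  refine VV.equiv (cancel S R₁ R₂ A) (step (azBC S A R₁ hA) hi hg hbir h1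
    fun Γ _ ψ hψ 𝔭 h𝔭 hp h2 => ?_)
  obtain ⟨i, -, hi⟩ := Ideal.IsPrime.prod_mem_iff.1 hp
  exact van_hyp (azBC _ _ _ (azBC S A R₁ hA)) hψ 𝔭 h𝔭 h2 (x i) hi (hx i)

theorem bot [IsRegularLocalRing S] [IsFractionRing S K] (hA : Az S A)
    (h1 : VV S A ∨ ringKrullDim S ≤ 3) : IsRegularLocalRing (⊥ : Subalgebra S K) ∧
      (VV (⊥ : Subalgebra S K) ((⊥ : Subalgebra S K) ⊗[S] A) ∨
        ringKrullDim (⊥ : Subalgebra S K) ≤ 3) := by
  let e := Algebra.botEquivOfInjective (IsFractionRing.injective S K)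
  have hR := IsRegularLocalRing.of_ringEquiv e.symm.toRingEquiv
  have hi : Bijective (algebraMap S (⊥ : Subalgebra S K)) := by
    have : (algebraMap S (⊥ : Subalgebra S K) : S → _) = e.symm :=
      funext fun s => (e.symm.commutes s).symm
    rw [this]
    exact e.symm.bijective
  have hbir : Bir S (1 : (⊥ : Subalgebra S K)) := fun r => by
    obtain ⟨a, rfl⟩ := hi.2 r
    exact ⟨a, 1, 0, by simp, by simp⟩
  exact ⟨hR, h1.imp (fun h1 => step hA hi.1 one_ne_zero hbir h1 fun Γ _ ψ hψ 𝔭 h𝔭 hp _ =>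
    absurd ((Ideal.eq_top_iff_one _).2 hp) h𝔭.ne_top) (hbir.dim_le one_ne_zero)⟩

theorem tower [IsRegularLocalRing S] [IsFractionRing S K] (hA : Az S A)
    (h1 : VV S A ∨ ringKrullDim S ≤ 3) {R : Subalgebra S K}
    (hR : Relation.ReflTransGen Modif ⊥ R) :
    IsRegularLocalRing R ∧ (VV R (R ⊗[S] A) ∨ ringKrullDim R ≤ 3) := by
  induction hR with
  | refl => exact bot hA h1
  | tail _ h ih =>
    obtain ⟨_, ih⟩ := ih
    exact modif hA h ih

theorem main (B S : Type u) [CommRing B] [IsRegularLocalRing B] (hB : ringKrullDim B ≤ 3)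
    [CommRing S] [IsLocalRing S] [Algebra B S] [IsLocalHom (algebraMap B S)]
    [Algebra.FormallySmooth B S] [Algebra.EssFiniteType B S]
    (A : Type u) [Ring A] [Algebra S A] [IsAzumaya S A]
    (K : Type u) [Field K] [Algebra S K] [IsFractionRing S K]
    (R : Subalgebra S K) (hR : Relation.ReflTransGen Modif ⊥ R)
    (O : Type u) [CommRing O] [Algebra R O] (T : Torsor R (R ⊗[S] A) O)
    (hK : Nonempty (O →ₐ[R] K)) : Nonempty (O →ₐ[R] R) := by
  have : Module.Free S A := Module.free_of_flat_of_isLocalRing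
  have hA := azOf S A
  obtain ⟨_, h1⟩ := base B S A hB hA
  obtain ⟨_, h2⟩ := tower hA h1 hR
  refine torsor_of_gsn azBC (wed ss) (split azBC (wed ss)) (nrd ud) (h90 pk.lemF)
    (azBC S A R hA) (fun Ω _ _ n Φ hS => ?_) K O T hK
  rcases h2 with h2 | h2
  · exact fun v a f hf h => main_cmp pk.dom pk.detR pk.n2 pk.lemF pk.chi1 pk.res pk.pdA pk.pdReg
      pk.len pk.cmp hS v a f hf h fun Γ _ ψ hψ 𝔭 h𝔭 _ h3 => h2 Γ ψ hψ 𝔭 h𝔭 h3
  · exact pk.smooth R h2 hS

end Pool.Agent.P.MP_46a8f8_ag.BU
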